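import Pool.Agent.MP_10b04c_gt.Defs

/-!
The valence of a vertex of a finite graph.
-/

set_option autoImplicit false

namespace Pool.Agent.MP_10b04c_gt

/-- The number of half-edges at `v`; a loop counts twice. -/
def valence {n m : ℕ} (src tgt : Fin m → Fin n) (v : Fin n) : ℕ :=
  (Finset.univ.filter fun e => src e = v).card + (Finset.univ.filter fun e => tgt e = v).card

end Pool.Agent.MP_10b04c_gt
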